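import Mathlib

set_option autoImplicit false

namespace Pool.Agent.Results.MP_385815_al.NotCellular

open Module

/-- Graham-Lehrer cellularity of a complex algebra. -/
def IsCellular (A : Type) [Ring A] [Algebra ℂ A] : Prop :=
  ∃ (Λ : Type) (_ : Fintype Λ) (_ : PartialOrder Λ) (M : Λ → Type) (_ : ∀ l, Fintype (M l))
    (C : Basis (Σ l : Λ, M l × M l) ℂ A) (inv : A →ₗ[ℂ] A),
    (∀ a, inv (inv a) = a) ∧ (∀ a b, inv (a * b) = inv b * inv a) ∧
    (∀ l S T, inv (C ⟨l, S, T⟩) = C ⟨l, T, S⟩) ∧
    ∀ (a : A) (l : Λ), ∃ r : M l → M l → ℂ, ∀ S T : M l,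
      a * C ⟨l, S, T⟩ - ∑ S', r S' S • C ⟨l, S', T⟩ ∈ Submodule.span ℂ (C '' {i | i.1 < l})

/-- generator `x` (a basis of the dual of the reflection representation) -/
def gx : FreeAlgebra ℂ (Fin 3) := FreeAlgebra.ι ℂ 0
/-- generator `y` (the dual basis of the reflection representation) -/
def gy : FreeAlgebra ℂ (Fin 3) := FreeAlgebra.ι ℂ 1
/-- generator `s` (the reflection) -/
def gs : FreeAlgebra ℂ (Fin 3) := FreeAlgebra.ι ℂ 2

/-- Defining relations of the restricted rational Cherednik algebra of `W = Z/2` acting on `ℂ`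
by `-1`, at the parameter `c`. -/
inductive Rel (c : ℂ) : FreeAlgebra ℂ (Fin 3) → FreeAlgebra ℂ (Fin 3) → Prop
  | ss : Rel c (gs * gs) 1
  | sx : Rel c (gs * gx) (-(gx * gs))
  | sy : Rel c (gs * gy) (-(gy * gs))
  | yx : Rel c (gy * gx - gx * gy) (-((2 * c) • gs))
  | xx : Rel c (gx * gx) 0
  | yy : Rel c (gy * gy) 0

/-- The restricted rational Cherednik algebra of type `A1` at the parameter `c`. -/
abbrev RRCA (c : ℂ) : Type := RingQuot (Rel c)

section general

variable {A : Type} [Ring A] [Algebra ℂ A]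

lemma trace_real {n : Type} [Fintype n] [DecidableEq n] (σ : Matrix n n ℂ) (h : σ * σ = 1) :
    ∃ t : ℝ, σ.trace = t := by
  let P : Matrix n n ℂ := (1 / 2 : ℂ) • (1 + σ)
  have hP : P * P = P := by
    simp only [P, Matrix.smul_mul, Matrix.mul_smul, mul_add, add_mul, h, one_mul, mul_one,
      smul_smul]
    ext i j
    simp only [Matrix.smul_apply, Matrix.add_apply, smul_eq_mul]
    ring
  have hI : IsIdempotentElem (Matrix.toLin' P) := by
    rw [IsIdempotentElem, Module.End.mul_eq_comp, ← Matrix.toLin'_mul, hP]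
  have := (LinearMap.IsIdempotentElem.isProj_range _ hI).trace
  rw [Matrix.trace_toLin'_eq] at this
  refine ⟨2 * (finrank ℂ (LinearMap.range (Matrix.toLin' P)) : ℝ) - Fintype.card n, ?_⟩
  simp only [P, Matrix.trace_smul, Matrix.trace_add, Matrix.trace_one, smul_eq_mul] at this
  push_cast
  linear_combination 2 * this

theorem not_cellular [Nontrivial A] (x y s : A) (hs : s * s = 1) (hsx : s * x = -(x * s))
    (hx : ∀ a, x * a * x = 0) (hy : ∀ a, y * a * y = 0)
    (hgen : ∀ P : A → Prop, (∀ c : ℂ, P (algebraMap ℂ A c)) → P x → P y → P s →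
      (∀ a b, P a → P b → P (a * b)) → (∀ a b, P a → P b → P (a + b)) → ∀ a, P a)
    (D : A →ₗ[ℂ] A) (hD : ∀ a, D (x * a) + x * D a = a) : ¬ IsCellular A := by
  classical
  rintro ⟨Λ, _, _, M, _, C, inv, hii, hanti, hC, hr⟩
  have : Module.Finite ℂ A := Module.Finite.of_basis C
  choose r hr using hr
  let low : Λ → Submodule ℂ A := fun l => Submodule.span ℂ (C '' {i | i.1 < l})
  have low_coord : ∀ l, ∀ z ∈ low l, ∀ i : (Σ l : Λ, M l × M l), ¬ i.1 < l → C.repr z i = 0 := by
    intro l z hz i hi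
    by_contra h
    exact hi (C.mem_span_image.1 hz (Finsupp.mem_support_iff.2 h))
  have low_mul : ∀ l a, ∀ z ∈ low l, a * z ∈ low l := by
    intro l a z hz
    induction hz using Submodule.span_induction with
    | mem z hz =>
      obtain ⟨⟨m, S, T⟩, hm, rfl⟩ := hz
      have h1 := hr a m S T
      have h2 : low m ≤ low l := Submodule.span_mono (Set.image_mono fun i hi => lt_trans hi hm)
      have h3 : ∑ S', r a m S' S • C ⟨m, S', T⟩ ∈ low l :=
        Submodule.sum_mem _ fun S' _ => Submodule.smul_mem _ _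
          (Submodule.subset_span ⟨⟨m, S', T⟩, hm, rfl⟩)
      simpa using Submodule.add_mem _ (h2 h1) h3
    | zero => simp
    | add u v _ _ hu hv => rw [mul_add]; exact Submodule.add_mem _ hu hv
    | smul c u _ hu => rw [mul_smul_comm]; exact Submodule.smul_mem _ _ hu
  have low_inv : ∀ l, ∀ z ∈ low l, inv z ∈ low l := by
    intro l z hz
    induction hz using Submodule.span_induction with
    | mem z hz =>
      obtain ⟨⟨m, S, T⟩, hm, rfl⟩ := hz
      rw [hC]
      exact Submodule.subset_span ⟨⟨m, T, S⟩, hm, rfl⟩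
    | zero => simp
    | add u v _ _ hu hv => rw [map_add]; exact Submodule.add_mem _ hu hv
    | smul c u _ hu => rw [map_smul]; exact Submodule.smul_mem _ _ hu
  -- coordinates
  have coord : ∀ a l (S T S' T' : M l), C.repr (a * C ⟨l, S, T⟩) ⟨l, S', T'⟩ =
      if T = T' then r a l S' S else 0 := by
    intro a l S T S' T'
    have := low_coord l _ (hr a l S T) ⟨l, S', T'⟩ (lt_irrefl _)
    rw [map_sub, Finsupp.sub_apply, sub_eq_zero] at this
    rw [this]
    simp [Finsupp.single_apply, ite_and]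
  have coord_ne : ∀ a l (S T : M l) (i : (Σ l : Λ, M l × M l)), ¬ i.1 ≤ l →
      C.repr (a * C ⟨l, S, T⟩) i = 0 := by
    intro a l S T i hi
    have := low_coord l _ (hr a l S T) i (fun h => hi h.le)
    rw [map_sub, Finsupp.sub_apply, sub_eq_zero] at this
    rw [this]
    simp only [map_sum, map_smul, Basis.repr_self, Finsupp.coe_finsetSum, Finset.sum_apply,
      Finsupp.smul_apply]
    refine Finset.sum_eq_zero fun S' _ => ?_
    rw [Finsupp.single_eq_of_ne, smul_zero]
    rintro rfl
    exact hi le_rfl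
  let R : ∀ l, A → Matrix (M l) (M l) ℂ := fun l a => Matrix.of (r a l)
  have R_eq : ∀ l a S' S, R l a S' S = C.repr (a * C ⟨l, S, S⟩) ⟨l, S', S⟩ := by
    intro l a S' S
    rw [coord]; simp [R]
  have R_add : ∀ l a b, R l (a + b) = R l a + R l b := by
    intro l a b; ext S' S; simp [R_eq, add_mul]
  have R_alg : ∀ l (c : ℂ), R l (algebraMap ℂ A c) = c • (1 : Matrix _ _ ℂ) := by
    intro l c; ext S' S
    simp [R_eq, ← Algebra.smul_def, Finsupp.single_apply, Matrix.one_apply, eq_comm]
  have R_one : ∀ l, R l 1 = 1 := by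
    intro l; simpa using R_alg l 1
  have R_zero : ∀ l, R l 0 = 0 := by
    intro l; simpa using R_alg l 0
  have R_mul : ∀ l a b, R l (a * b) = R l a * R l b := by
    intro l a b; ext S' S
    have h1 := low_coord l _ (low_mul l a _ (hr b l S S)) ⟨l, S', S⟩ (lt_irrefl _)
    rw [mul_sub, map_sub, Finsupp.sub_apply, sub_eq_zero, ← mul_assoc] at h1
    rw [R_eq, h1, Finset.mul_sum]
    simp only [mul_smul_comm, map_sum, map_smul, Finsupp.coe_finsetSum, Finset.sum_apply,
      Finsupp.smul_apply, coord, if_true, Matrix.mul_apply, R, Matrix.of_apply, smul_eq_mul]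
    exact Finset.sum_congr rfl fun _ _ => mul_comm _ _
  -- the trace computation
  let Tm : A →ₗ[ℂ] A := (LinearMap.mulLeft ℂ s).comp (LinearMap.mulRight ℂ (inv s))
  have tr0 : LinearMap.trace ℂ A Tm = 0 := by
    let X : A →ₗ[ℂ] A := LinearMap.mulLeft ℂ x
    have h1 : D * X + X * D = 1 := by ext a; simpa [X] using hD a
    have h2 : Tm * X = -(X * Tm) := by
      ext a
      simp only [Tm, X, Module.End.mul_apply, LinearMap.comp_apply, LinearMap.mulLeft_apply,
        LinearMap.mulRight_apply, LinearMap.neg_apply]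
      rw [← mul_assoc, ← mul_assoc, hsx]
      noncomm_ring
    calc LinearMap.trace ℂ A Tm = LinearMap.trace ℂ A (Tm * (D * X + X * D)) := by
          rw [h1, mul_one]
      _ = LinearMap.trace ℂ A (Tm * D * X) + LinearMap.trace ℂ A (Tm * X * D) := by
          rw [mul_add, map_add, mul_assoc, mul_assoc]
      _ = 0 := by
          have h3 : Tm * X * D = -(X * (Tm * D)) := by
            rw [h2]; ext a; simp
          rw [h3, LinearMap.trace_mul_comm ℂ (Tm * D) X, map_neg]
          ring
  have tr1 : LinearMap.trace ℂ A Tm = ∑ l, (R l s).trace ^ 2 := by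
    rw [LinearMap.trace_eq_matrix_trace ℂ C, Matrix.trace, Fintype.sum_sigma]
    refine Finset.sum_congr rfl fun l _ => ?_
    rw [Fintype.sum_prod_type, sq, Matrix.trace, Finset.sum_mul_sum]
    refine Finset.sum_congr rfl fun S _ => Finset.sum_congr rfl fun T _ => ?_
    simp only [Matrix.diag_apply, LinearMap.toMatrix_apply, Tm, LinearMap.comp_apply,
      LinearMap.mulLeft_apply, LinearMap.mulRight_apply]
    have h1 := low_coord l _ (low_mul l s _ (low_inv l _ (hr s l T S))) ⟨l, S, T⟩ (lt_irrefl _)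
    rw [map_sub, hanti, hC, mul_sub, map_sub, Finsupp.sub_apply, sub_eq_zero] at h1
    rw [h1]
    simp [hC, Finset.mul_sum, coord, R, mul_comm]
  have hss : ∀ l, R l s * R l s = 1 := fun l => by rw [← R_mul, hs, R_one]
  choose t ht using fun l => trace_real (R l s) (hss l)
  have tr2 : ∀ l, (R l s).trace = 0 := by
    rw [tr1] at tr0
    simp only [ht] at tr0 ⊢
    have : ∑ l, t l ^ 2 = 0 := by exact_mod_cast tr0
    rw [Finset.sum_eq_zero_iff_of_nonneg (fun l _ => sq_nonneg _)] at this
    intro l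
    have := pow_eq_zero_iff (two_ne_zero) |>.1 (this l (Finset.mem_univ _))
    simp [this]
  -- the top cell
  have hne : (Finset.univ.filter fun l : Λ => Nonempty (M l)).Nonempty := by
    obtain ⟨⟨l, S, T⟩⟩ := C.index_nonempty
    exact ⟨l, by simpa using ⟨S⟩⟩
  obtain ⟨l, hl⟩ := Finset.exists_maximal hne
  have hl1 : Nonempty (M l) := by simpa using hl.prop
  let co : A → Matrix (M l) (M l) ℂ := fun a => Matrix.of fun S T => C.repr a ⟨l, S, T⟩
  have co_mul : ∀ a b, co (a * b) = R l a * co b := by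
    intro a b
    ext S T
    conv_lhs => rw [← C.sum_repr b]
    simp only [co, Matrix.of_apply, Finset.mul_sum, mul_smul_comm, map_sum, map_smul,
      Finsupp.coe_finsetSum, Finset.sum_apply, Finsupp.smul_apply, smul_eq_mul]
    rw [Fintype.sum_sigma, Finset.sum_eq_single l]
    · simp [Fintype.sum_prod_type, coord, Matrix.mul_apply, R, mul_comm]
    · intro m _ hm
      refine Finset.sum_eq_zero fun ⟨U, V⟩ _ => ?_
      rw [coord_ne, mul_zero]
      intro hle
      exact hm (le_antisymm (hl.le_of_ge (by simpa using ⟨U⟩) hle) hle)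
    · simp
  have co_surj : ∀ N, ∃ a, co a = N := by
    intro N
    refine ⟨∑ S, ∑ T, N S T • C ⟨l, S, T⟩, ?_⟩
    ext S T
    simp [co, Finsupp.single_apply, ite_and]
  have R_surj : ∀ N, ∃ a, R l a = N := by
    obtain ⟨a0, ha0⟩ := co_surj 1
    have h1 : R l a0 * co 1 = 1 := by rw [← co_mul, mul_one, ha0]
    have h2 : co 1 * R l a0 = 1 := mul_eq_one_comm.1 h1
    intro N
    obtain ⟨a, ha⟩ := co_surj (N * co 1)
    refine ⟨a, ?_⟩
    have h3 : R l a * co 1 = N * co 1 := by rw [← co_mul, mul_one, ha]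
    calc R l a = R l a * co 1 * R l a0 := by rw [mul_assoc, h2, mul_one]
      _ = N := by rw [h3, mul_assoc, h2, mul_one]
  have nil : ∀ z : A, (∀ a, z * a * z = 0) → R l z = 0 := by
    intro z hz
    ext i j
    obtain ⟨a, ha⟩ := R_surj (Matrix.single j i 1)
    have h1 : R l z * Matrix.single j i 1 * R l z = 0 := by
      rw [← ha, ← R_mul, ← R_mul, hz, R_zero]
    have h2 := congrFun (congrFun h1 i) j
    simp [Matrix.mul_apply, Matrix.single_apply, ite_and] at h2
    simpa using h2
  have comm : ∀ a, Commute (R l a) (R l s) := by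
    refine hgen _ ?_ ?_ ?_ ?_ ?_ ?_
    · intro c; rw [R_alg]; exact (Commute.one_left _).smul_left _
    · rw [nil x hx]; exact Commute.zero_left _
    · rw [nil y hy]; exact Commute.zero_left _
    · exact Commute.refl _
    · intro a b ha hb; rw [R_mul]; exact ha.mul_left hb
    · intro a b ha hb; rw [R_add]; exact ha.add_left hb
  obtain ⟨c, hc⟩ := (Matrix.mem_range_scalar_iff_commute_single' (M := R l s)).2 fun i j => by
    obtain ⟨a, ha⟩ := R_surj (Matrix.single i j 1)
    rw [← ha]; exact comm a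
  have h1 := tr2 l
  have h2 := hss l
  rw [← hc] at h1 h2
  have hc0 : c = 0 := by
    simpa [Matrix.trace_diagonal] using h1
  rw [hc0] at h2
  simp at h2

end general

/-- the regular representation space -/
abbrev V : Type := Bool → Bool → Bool → ℂ

/-- action of `x` -/
def X : V →ₗ[ℂ] V where
  toFun v i j k := if i then v false j k else 0
  map_add' u v := by funext i j k; cases i <;> simp
  map_smul' c v := by funext i j k; cases i <;> simp

/-- action of `y` -/
def Y : V →ₗ[ℂ] V where
  toFun v i j k := if j then v i false k else 0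
  map_add' u v := by funext i j k; cases j <;> simp
  map_smul' c v := by funext i j k; cases j <;> simp

/-- action of `s` -/
def Sg : V →ₗ[ℂ] V where
  toFun v i j k := if i = j then v i j (!k) else - v i j (!k)
  map_add' u v := by funext i j k; cases i <;> cases j <;> simp [add_comm]
  map_smul' c v := by funext i j k; cases i <;> cases j <;> simp

/-- contraction -/
def DV : V →ₗ[ℂ] V where
  toFun v i j k := if i then 0 else v true j k
  map_add' u v := by funext i j k; cases i <;> simp
  map_smul' c v := by funext i j k; cases i <;> simp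

noncomputable def rho0 : FreeAlgebra ℂ (Fin 3) →ₐ[ℂ] Module.End ℂ V :=
  FreeAlgebra.lift ℂ ![X, Y, Sg]

lemma rho0_rel : ∀ ⦃a b⦄, Rel 0 a b → rho0 a = rho0 b := by
  intro a b h
  cases h <;> simp only [rho0, gx, gy, gs, map_mul, map_neg, map_sub, map_one, map_zero, map_smul,
    FreeAlgebra.lift_ι_apply] <;> refine LinearMap.ext fun v => ?_ <;> funext i j k <;>
    cases i <;> cases j <;> simp [X, Y, Sg]

noncomputable def rho : RRCA 0 →ₐ[ℂ] Module.End ℂ V :=
  RingQuot.liftAlgHom ℂ ⟨rho0, rho0_rel⟩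

noncomputable def x : RRCA 0 := RingQuot.mkAlgHom ℂ (Rel 0) gx
noncomputable def y : RRCA 0 := RingQuot.mkAlgHom ℂ (Rel 0) gy
noncomputable def s : RRCA 0 := RingQuot.mkAlgHom ℂ (Rel 0) gs

lemma rho_x : rho x = X := by simp [rho, x, rho0, gx]
lemma rho_y : rho y = Y := by simp [rho, y, rho0, gy]
lemma rho_s : rho s = Sg := by simp [rho, s, rho0, gs]

lemma h_ss : s * s = 1 := by simpa [x, y, s] using RingQuot.mkAlgHom_rel ℂ (Rel.ss (c := 0))
lemma h_sx : s * x = -(x * s) := by simpa [x, y, s] using RingQuot.mkAlgHom_rel ℂ (Rel.sx (c := 0))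
lemma h_sy : s * y = -(y * s) := by simpa [x, y, s] using RingQuot.mkAlgHom_rel ℂ (Rel.sy (c := 0))
lemma h_yx : y * x = x * y := by
  have := RingQuot.mkAlgHom_rel ℂ (Rel.yx (c := 0))
  simpa [sub_eq_zero, x, y] using this
lemma h_xx : x * x = 0 := by simpa [x, y, s] using RingQuot.mkAlgHom_rel ℂ (Rel.xx (c := 0))
lemma h_yy : y * y = 0 := by simpa [x, y, s] using RingQuot.mkAlgHom_rel ℂ (Rel.yy (c := 0))

lemma gen (P : RRCA 0 → Prop) (h0 : ∀ c : ℂ, P (algebraMap ℂ _ c)) (h1 : P x) (h2 : P y)
    (h3 : P s) (h4 : ∀ a b, P a → P b → P (a * b)) (h5 : ∀ a b, P a → P b → P (a + b))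
    (a : RRCA 0) : P a := by
  obtain ⟨a, rfl⟩ := RingQuot.mkAlgHom_surjective ℂ (Rel 0) a
  induction a using FreeAlgebra.induction with
  | grade0 c => simpa using h0 c
  | grade1 i => fin_cases i; exacts [h1, h2, h3]
  | mul a b ha hb => rw [map_mul]; exact h4 _ _ ha hb
  | add a b ha hb => rw [map_add]; exact h5 _ _ ha hb

section general2

variable {A : Type} [Ring A] [Algebra ℂ A]

/-- monomials -/
noncomputable def psi (x y s : A) : V →ₗ[ℂ] A where
  toFun v := v false false false • 1 + v false false true • s + v false true false • y +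
    v false true true • (y * s) + v true false false • x + v true false true • (x * s) +
    v true true false • (x * y) + v true true true • (x * (y * s))
  map_add' u v := by simp only [Pi.add_apply, add_smul]; abel
  map_smul' c v := by simp only [Pi.smul_apply, smul_eq_mul, mul_smul, smul_add, RingHom.id_apply]

/-- the vector corresponding to the unit -/
def v0 : V := fun i j k => if i || j || k then 0 else 1

theorem not_cellular2 (x y s : A) (h_ss : s * s = 1) (h_sx : s * x = -(x * s))
    (h_sy : s * y = -(y * s)) (h_yx : y * x = x * y) (h_xx : x * x = 0) (h_yy : y * y = 0)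
    (gen : ∀ P : A → Prop, (∀ c : ℂ, P (algebraMap ℂ A c)) → P x → P y → P s →
      (∀ a b, P a → P b → P (a * b)) → (∀ a b, P a → P b → P (a + b)) → ∀ a, P a)
    (rho : A →ₐ[ℂ] Module.End ℂ V) (rho_x : rho x = X) (rho_y : rho y = Y) (rho_s : rho s = Sg) :
    ¬ IsCellular A := by
  have h_sx' (a : A) : s * (x * a) = -(x * (s * a)) := by
    rw [← mul_assoc, h_sx, neg_mul, mul_assoc]
  have h_sy' (a : A) : s * (y * a) = -(y * (s * a)) := by
    rw [← mul_assoc, h_sy, neg_mul, mul_assoc]
  have h_yx' (a : A) : y * (x * a) = x * (y * a) := by rw [← mul_assoc, h_yx, mul_assoc]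
  have h_xx' (a : A) : x * (x * a) = 0 := by rw [← mul_assoc, h_xx, zero_mul]
  have h_yy' (a : A) : y * (y * a) = 0 := by rw [← mul_assoc, h_yy, zero_mul]
  have psi_rho (a : A) : ∀ v, psi x y s (rho a v) = a * psi x y s v := by
    refine gen (fun a => ∀ v, psi x y s (rho a v) = a * psi x y s v) ?_ ?_ ?_ ?_ ?_ ?_ a
    · intro c v
      rw [AlgHom.commutes, Module.algebraMap_end_apply, map_smul, Algebra.smul_def]
    · intro v
      simp [rho_x, psi, X, mul_add, h_xx, h_xx']
    · intro v
      simp [rho_y, psi, Y, mul_add, h_yy, h_yy', h_yx, h_yx']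
    · intro v
      simp [rho_s, psi, Sg, mul_add, h_ss, h_sx, h_sx', h_sy, h_sy']
      abel
    · intro a b ha hb v
      rw [map_mul, Module.End.mul_apply, ha, hb, mul_assoc]
    · intro a b ha hb v
      rw [map_add, LinearMap.add_apply, map_add, ha, hb, add_mul]
  have psi_v0 : psi x y s v0 = 1 := by simp [psi, v0]
  have normal (z : A) (h1 : ∃ a, z * x = a * z) (h2 : ∃ a, z * y = a * z)
      (h3 : ∃ a, z * s = a * z) (hz : z * z = 0) (a : A) : z * a * z = 0 := by
    have : ∃ a', z * a = a' * z := by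
      refine gen (fun a => ∃ a', z * a = a' * z) ?_ h1 h2 h3 ?_ ?_ a
      · intro c; exact ⟨_, (Algebra.commutes c z).symm⟩
      · rintro a b ⟨a', ha⟩ ⟨b', hb⟩
        exact ⟨a' * b', by rw [← mul_assoc, ha, mul_assoc, hb, mul_assoc]⟩
      · rintro a b ⟨a', ha⟩ ⟨b', hb⟩
        exact ⟨a' + b', by rw [mul_add, ha, hb, add_mul]⟩
    obtain ⟨a', ha⟩ := this
    rw [ha, mul_assoc, hz, mul_zero]
  have : Nontrivial A := rho.toRingHom.domain_nontrivial
  let ev : A →ₗ[ℂ] V := (LinearMap.applyₗ v0).comp rho.toLinearMap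
  refine not_cellular x y s h_ss h_sx
    (normal x ⟨x, rfl⟩ ⟨y, h_yx.symm⟩ ⟨-s, by rw [neg_mul, h_sx, neg_neg]⟩ h_xx)
    (normal y ⟨x, h_yx⟩ ⟨y, rfl⟩ ⟨-s, by rw [neg_mul, h_sy, neg_neg]⟩ h_yy) gen
    ((psi x y s).comp (DV.comp ev)) ?_
  intro a
  have e1 : ev (x * a) = X (ev a) := by simp [ev, rho_x]
  have e2 : psi x y s (ev a) = a := by simp [ev, psi_rho, psi_v0]
  have e3 : ∀ v, DV (X v) + X (DV v) = v := by
    intro v; funext i j k; cases i <;> simp [DV, X]
  simp only [LinearMap.comp_apply]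
  rw [e1, ← psi_rho, rho_x, ← map_add, e3, e2]

end general2

theorem result : ¬ IsCellular (RRCA 0) :=
  not_cellular2 x y s h_ss h_sx h_sy h_yx h_xx h_yy gen rho rho_x rho_y rho_s

end Pool.Agent.Results.MP_385815_al.NotCellular
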